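import Pool.Agent.Q50.GE.Defs

/-!
# Automorphy of polarized Galois representations of CM fields: data and known facts
-/

set_option autoImplicit false

universe u

open NumberField

namespace Pool.Agent.Q50.ES.GN

open GM (IsCharacter)
open GE (CMField CyclicStep Tower)

variable (K : Type u) [Field K] [TopologicalSpace K] (n : ℕ)

/-- The `n` by `n` matrices. -/
abbrev MatN := Matrix (Fin n) (Fin n) K

variable {K n}

/-- `m` is the product of `s` and `t`. -/
def IsProdN (m s t : MatN K n) : Prop := m = s * t

/-- `t` is in the span of `S`. -/
def InSpanN (S : Set (MatN K n)) (t : MatN K n) : Prop := t ∈ Submodule.span K S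

/-- `s = P r P⁻¹` on `S`. -/
def ConjOnN (S : Set Γ) (r s : Γ → MatN K n) : Prop :=
  ∃ P : GL (Fin n) K, ∀ g ∈ S, s g = (P : MatN K n) * r g * ((P⁻¹ : GL (Fin n) K) : MatN K n)

variable (K n)

/-- A continuous representation of the Galois group `Gal(Ω/F)` on `Kⁿ`: only the values on this group
matter. -/
structure RepN (F : Fld) where
  /-- the matrices -/
  toFun : Γ → MatN K n
  one : toFun 1 = 1
  mul : ∀ g ∈ Gal F, ∀ h ∈ Gal F, IsProdN (toFun (g * h)) (toFun g) (toFun h)
  cont : ContinuousOn toFun (Gal F)

variable {K n}

/-- The representations `r` of `Gal(Ω/F)` and `s` of `Gal(Ω/F')` become isomorphic on `Gal(Ω/L)`. -/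
def IsoN (L : Fld) {F F' : Fld} (r : RepN K n F) (s : RepN K n F') : Prop :=
  ConjOnN (Gal L) r.toFun s.toFun

/-- The restriction of the representation to every open subgroup is absolutely irreducible. -/
def LieIrreducible {F : Fld} (r : RepN K n F) : Prop :=
  ∀ L, F ≤ L → FiniteDimensional ℚ L → ∀ t, InSpanN {t | ∃ h ∈ Gal L, t = r.toFun h} t

/-- `Ψ` is a continuous character of `Gal(Ω/F)`. -/
def ContCharacter (F : Fld) (Ψ : Γ → K) : Prop :=
  ContinuousOn Ψ (Gal F) ∧ Ψ 1 = 1 ∧ ∀ g ∈ Gal F, ∀ h ∈ Gal F, Ψ (g * h) = Ψ g * Ψ h

/-- `F` is a quadratic extension of the totally real field `F₀`, and `c` a complex conjugation: an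
involution in `Gal(Ω/F₀)` which is not in `Gal(Ω/F)`. -/
def IsConjugation (F₀ F : Fld) (c : Γ) : Prop :=
  TotallyReal F₀ ∧ F₀ ≤ F ∧ F.fixingSubgroup.relIndex F₀.fixingSubgroup = 2 ∧
    c ∈ Gal F₀ ∧ c ∉ Gal F ∧ c * c = 1

/-- The representation `R` over the CM field `F` is polarized: `R^∨ ≅ R^c ⊗ Ψ` for a continuous character
`Ψ` of the Galois group of the maximal totally real subfield. -/
def Polarized {F : Fld} (R : RepN K n F) : Prop :=
  ∃ F₀ c, IsConjugation F₀ F c ∧ ∃ Ψ : Γ → K, ContCharacter F₀ Ψ ∧
    ConjOnN (Gal F) (fun g => Ψ g • R.toFun (c * g * c)) (fun g => (R.toFun g)⁻¹.transpose)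

variable (K n)

/-- Automorphic representations over CM fields; `K` is an algebraic closure of `ℚ_p` for a fixed prime
`p`, identified with `ℂ` as a field. `Form F`, `F` a CM field: the regular algebraic, essentially
conjugate self-dual cuspidal automorphic representations of `GL_n` over `F` (none if `F` is not a CM
field); `gal f`: the Galois representation of `f`; `Geometric R`: the representation `R` is
unramified at almost all places, potentially semistable at the places above `p`, with distinct
Hodge-Tate weights for every embedding; `Semistable R`: `R` is semistable at all places (unipotent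
inertia, Fontaine's sense above `p`). `place L`: the finite places of `L`; `norm w`: the number of
elements of the residue field of `w`; `frob w`: a Frobenius element of `w` in `Gal(Ω/L)`. -/
structure Data where
  /-- automorphic representations -/
  Form : Fld → Type u
  /-- the Galois representation -/
  gal : ∀ {F}, Form F → RepN K n F
  /-- potentially semistable, with distinct Hodge-Tate weights -/
  Geometric : ∀ {F}, RepN K n F → Prop
  /-- semistable -/
  Semistable : ∀ {F}, RepN K n F → Prop
  /-- the finite places -/
  place : Fld → Type
  /-- the norm -/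
  norm : ∀ {L}, place L → ℕ
  /-- a Frobenius element -/
  frob : ∀ {L}, place L → Γ

namespace Data

variable {K n} (T : Data K n)

/-- The representation `R` is automorphic. -/
def Automorphic {F : Fld} (R : RepN K n F) : Prop := ∃ f : T.Form F, IsoN F R (T.gal f)

/-- The finite places of `L` for which the Frobenius traces of `R` and `f` have the same `m`-th power. -/
def Agree {F L : Fld} (R : RepN K n F) (f : T.Form L) (m : ℕ) : Set (T.place L) :=
  {w | (R.toFun (T.frob w)).trace ^ m = ((T.gal f).toFun (T.frob w)).trace ^ m}

/-- For some `L` at the end of a tower of CM fields over `F`, some `f` over `L` and some `m ≥ 1` the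
Frobenius traces of `R` and `f` have the same `m`-th power for a set of places of `L` of positive
upper density. -/
def Approximated {F : Fld} (R : RepN K n F) : Prop :=
  ∃ L, Tower F L ∧ ∃ f : T.Form L, ∃ m : ℕ, 0 < m ∧ PositiveUpperDensity T.norm (T.Agree R f m)

/-- The representations considered over `F`: polarized, geometric with distinct Hodge-Tate weights, and
irreducible on every open subgroup. -/
def Good {F : Fld} (R : RepN K n F) : Prop := T.Geometric R ∧ Polarized R ∧ LieIrreducible R

/-- Known: twists by characters of finite order; if the twist of `gal f` is the restriction of a polarized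
representation, the twist of `f` is essentially conjugate self-dual. -/
def Twist : Prop :=
  ∀ (F L L' : Fld) (R : RepN K n F) (f : T.Form L) (χ : Γ → K), Tower F L → FiniteGalois L L' →
    IsCharacter L L' χ → T.Good R →
    ConjOnN (Gal L) (fun g => χ g • (T.gal f).toFun g) R.toFun →
    ∃ f' : T.Form L, IsoN L R (T.gal f')

/-- Known (Arthur-Clozel; Barnet-Lamb, Gee, Geraghty, Taylor, Lemma 2.2.2): descent of automorphy of
polarized representations along a cyclic extension of prime degree of CM fields. -/
def CyclicDescent : Prop :=
  ∀ (F F' L : Fld) (R : RepN K n F) (f : T.Form L), Tower F F' → CyclicStep F' L → T.Good R →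
    IsoN L R (T.gal f) → ∃ f' : T.Form F', IsoN F' R (T.gal f')

/-- Known (algebraic Chebotarev density theorem, Rajan): if the traces on the representations `R` and
`gal f` have the same `m`-th power for a set of places of `L` of positive upper density, then they
agree up to one `m`-th root of unity on a coset of an open subgroup. -/
def Chebotarev : Prop :=
  ∀ (F L : Fld) (R : RepN K n F) (f : T.Form L) (m : ℕ), F ≤ L → T.Geometric R → 0 < m →
    PositiveUpperDensity T.norm (T.Agree R f m) → ∃ L', FiniteGalois L L' ∧
      ∃ ζ : K, ζ ^ m = 1 ∧ ∃ g ∈ Gal L, ∀ x ∈ Gal L',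
        (R.toFun (g * x)).trace = ζ * ((T.gal f).toFun (g * x)).trace

/-- Known (Grothendieck, definition of potential semistability, class field theory): for every CM field
`M₀` which is Galois over `ℚ` with solvable group, `R` over the CM field `F` becomes semistable over
a CM field `L ⊇ M₀` at the end of a tower over `F`; the restriction `R'` of `R` is again polarized
and geometric. -/
def SemistableReduction : Prop :=
  ∀ (F M₀ : Fld) (R : RepN K n F), CMField F → CMField M₀ → SolvableGalois M₀ → T.Good R →
    ∃ L, Tower F L ∧ M₀ ≤ L ∧ ∃ R' : RepN K n L, R'.toFun = R.toFun ∧ T.Geometric R' ∧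
      Polarized R' ∧ T.Semistable R'

/-- The known facts. -/
structure Facts : Prop where
  twist : T.Twist
  descent : T.CyclicDescent
  chebotarev : T.Chebotarev
  semistable : T.SemistableReduction
  frob_mem : ∀ (L : Fld) (w : T.place L), T.frob w ∈ Gal L

end Data

end Pool.Agent.Q50.ES.GN
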