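import Pool.Agent.Q50.GE.Defs

/-!
# Representations of dimension n: the algebra
-/

set_option autoImplicit false
set_option maxHeartbeats 4000000
set_option synthInstance.maxHeartbeats 400000
set_option linter.unusedSectionVars false

universe u

open Matrix

namespace Pool.Agent.Q50.ES.GN

variable {K : Type u} [Field K] {n : ℕ}

/-- Every algebra automorphism of the matrix algebra is inner. -/
theorem inner_of_algEquiv (φ : Matrix (Fin n) (Fin n) K ≃ₐ[K] Matrix (Fin n) (Fin n) K) :
    ∃ P : GL (Fin n) K, ∀ m, φ m = (P : Matrix (Fin n) (Fin n) K) * m *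
      ((P⁻¹ : GL (Fin n) K) : Matrix (Fin n) (Fin n) K) := by
  let e : Matrix (Fin n) (Fin n) K ≃ₐ[K] Module.End K (Fin n → K) := Matrix.toLinAlgEquiv'
  obtain ⟨t, ht⟩ := AlgEquiv.eq_linearEquivConjAlgEquiv ((e.symm.trans φ).trans e)
  let P : GL (Fin n) K :=
    ⟨e.symm t.toLinearMap, e.symm t.symm.toLinearMap, by
      rw [← map_mul]
      have : (t.toLinearMap : Module.End K (Fin n → K)) * t.symm.toLinearMap = 1 := by
        ext v
        simp
      rw [this, map_one], by
      rw [← map_mul]
      have : (t.symm.toLinearMap : Module.End K (Fin n → K)) * t.toLinearMap = 1 := by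
        ext v
        simp
      rw [this, map_one]⟩
  refine ⟨P, fun m => ?_⟩
  have h1 : e (φ m) = t.toLinearMap ∘ₗ e m ∘ₗ t.symm.toLinearMap := by
    have := congrArg (fun ψ => ψ (e m)) ht
    simp only [AlgEquiv.trans_apply, AlgEquiv.symm_apply_apply] at this
    rw [this]
    rfl
  have h2 : φ m = e.symm (t.toLinearMap ∘ₗ e m ∘ₗ t.symm.toLinearMap) := by
    rw [← h1, AlgEquiv.symm_apply_apply]
  rw [h2]
  change _ = e.symm t.toLinearMap * m * e.symm t.symm.toLinearMap
  have h3 : (t.toLinearMap ∘ₗ e m ∘ₗ t.symm.toLinearMap : Module.End K (Fin n → K)) =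
      (t.toLinearMap : Module.End K (Fin n → K)) * e m * t.symm.toLinearMap := by
    rfl
  rw [h3, map_mul, map_mul, AlgEquiv.symm_apply_apply]

/-- **Traces on a coset.** Let `s` be a monoid of pairs `(a, b)` of matrices such that the `a` span the
matrix algebra and `trace (c a) = trace (d b)`, where `c` is invertible. Then the `b` are obtained from
the `a` by one conjugation. -/
theorem conj_of_trace_coset (s : Submonoid (Matrix (Fin n) (Fin n) K × Matrix (Fin n) (Fin n) K))
    (hspan : ∀ m, m ∈ Submodule.span K {a | ∃ p ∈ s, a = p.1})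
    {c d c' : Matrix (Fin n) (Fin n) K} (hc : c * c' = 1)
    (htr : ∀ p ∈ s, (c * p.1).trace = (d * p.2).trace) :
    ∃ P : GL (Fin n) K, ∀ p ∈ s, p.2 = (P : Matrix (Fin n) (Fin n) K) * p.1 *
      ((P⁻¹ : GL (Fin n) K) : Matrix (Fin n) (Fin n) K) := by
  classical
  let B := Algebra.adjoin K (s : Set (Matrix (Fin n) (Fin n) K × Matrix (Fin n) (Fin n) K))
  have hBs : Subalgebra.toSubmodule B = Submodule.span K (s : Set (_ × _)) := by
    change Subalgebra.toSubmodule (Algebra.adjoin K _) = _
    rw [Algebra.adjoin_eq_span, Submonoid.closure_eq]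
  have htrB : ∀ p ∈ B, (c * p.1).trace = (d * p.2).trace := by
    intro p hp
    have hp' : p ∈ Submodule.span K (s : Set (_ × _)) := by
      rw [← hBs]
      exact hp
    clear hp
    induction hp' using Submodule.span_induction with
    | mem x hx => exact htr x hx
    | zero => simp
    | add x y hx hy h1 h2 =>
      rw [Prod.fst_add, Prod.snd_add, mul_add, mul_add, trace_add, trace_add, h1, h2]
    | smul a x hx h1 =>
      rw [Prod.smul_fst, Prod.smul_snd, mul_smul_comm, mul_smul_comm, trace_smul, trace_smul, h1]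
  -- the projections
  let π₁ : B →ₐ[K] Matrix (Fin n) (Fin n) K := (AlgHom.fst K _ _).comp B.val
  let π₂ : B →ₐ[K] Matrix (Fin n) (Fin n) K := (AlgHom.snd K _ _).comp B.val
  have hsurj : Function.Surjective π₁ := by
    intro m
    have hm := hspan m
    have hle : Submodule.span K {a | ∃ p ∈ s, a = p.1} ≤ LinearMap.range π₁.toLinearMap := by
      rw [Submodule.span_le]
      rintro _ ⟨p, hp, rfl⟩
      exact ⟨⟨p, Algebra.subset_adjoin hp⟩, rfl⟩
    obtain ⟨b, hb⟩ := hle hm
    exact ⟨b, hb⟩
  have hinj : Function.Injective π₂ := by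
    rw [injective_iff_map_eq_zero]
    intro b hb
    have hb2 : b.1.2 = 0 := hb
    have hall : ∀ m : Matrix (Fin n) (Fin n) K, (b.1.1 * m).trace = 0 := by
      intro m
      obtain ⟨x, hx⟩ := hsurj (c' * m)
      have hx1 : x.1.1 = c' * m := hx
      have h1 := htrB (x * b : B).1 (x * b).2
      have h2 : ((x * b : B).1).1 = c' * m * b.1.1 := by
        change x.1.1 * b.1.1 = _
        rw [hx1]
      have h3 : ((x * b : B).1).2 = 0 := by
        change x.1.2 * b.1.2 = 0
        rw [hb2, mul_zero]
      rw [h2, h3, mul_zero, trace_zero, ← mul_assoc, ← mul_assoc, hc, one_mul] at h1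
      rw [trace_mul_comm]
      exact h1
    have hz : b.1.1 = 0 := by
      rw [Matrix.ext_iff_trace_mul_right]
      intro x
      rw [hall x, zero_mul, trace_zero]
    exact Subtype.ext (Prod.ext hz hb2)
  have hfin : Module.Finite K B := Module.Finite.of_injective π₂.toLinearMap hinj
  have hdim : Module.finrank K B = Module.finrank K (Matrix (Fin n) (Fin n) K) := by
    apply le_antisymm
    · exact LinearMap.finrank_le_finrank_of_injective (f := π₂.toLinearMap) hinj
    · have := LinearMap.finrank_range_le π₁.toLinearMap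
      rw [LinearMap.range_eq_top.2 hsurj, finrank_top] at this
      exact this
  have hbij₁ : Function.Bijective π₁ := by
    refine ⟨?_, hsurj⟩
    exact (LinearMap.injective_iff_surjective_of_finrank_eq_finrank hdim
      (f := π₁.toLinearMap)).2 hsurj
  have hbij₂ : Function.Bijective π₂ := by
    refine ⟨hinj, ?_⟩
    exact (LinearMap.injective_iff_surjective_of_finrank_eq_finrank hdim
      (f := π₂.toLinearMap)).1 hinj
  obtain ⟨P, hP⟩ := inner_of_algEquiv
    ((AlgEquiv.ofBijective π₁ hbij₁).symm.trans (AlgEquiv.ofBijective π₂ hbij₂))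
  refine ⟨P, fun p hp => ?_⟩
  rw [← hP p.1]
  have h1 : (AlgEquiv.ofBijective π₁ hbij₁).symm p.1 = ⟨p, Algebra.subset_adjoin hp⟩ := by
    rw [AlgEquiv.symm_apply_eq]
    rfl
  rw [AlgEquiv.trans_apply, h1]
  rfl

/-- A matrix which commutes with a spanning set is scalar. -/
theorem scalar_of_comm {S : Set (Matrix (Fin n) (Fin n) K)} (hS : ∀ m, m ∈ Submodule.span K S)
    {t : Matrix (Fin n) (Fin n) K} (ht : ∀ s ∈ S, t * s = s * t) :
    ∃ c : K, t = c • (1 : Matrix (Fin n) (Fin n) K) := by
  have h : ∀ m : Matrix (Fin n) (Fin n) K, t * m = m * t := by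
    intro m
    have hm := hS m
    induction hm using Submodule.span_induction with
    | mem x hx => exact ht x hx
    | zero => simp
    | add x y _ _ hx hy => rw [mul_add, add_mul, hx, hy]
    | smul c x _ hx => rw [mul_smul_comm, hx, smul_mul_assoc]
  obtain ⟨c, hc⟩ := (Matrix.mem_range_scalar_iff_commute_single' (M := t)).2
    (fun i j => (h _).symm)
  refine ⟨c, ?_⟩
  rw [← hc, Matrix.scalar_apply, Matrix.smul_one_eq_diagonal]

end Pool.Agent.Q50.ES.GN
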