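import Pool.Agent.Q50.GN.Defs
import Pool.Agent.Q50.GN.Mat
import Pool.Agent.Q50.GE.Main

/-!
# Automorphy from a positive proportion of the places over a tower of CM fields
-/

set_option autoImplicit false
set_option maxHeartbeats 4000000
set_option synthInstance.maxHeartbeats 400000
set_option linter.unusedSectionVars false
set_option linter.ambiguousOpen false

universe u

open NumberField Matrix

namespace Pool.Agent.Q50.ES.GN

open GM (IsCharacter)
open GE (CMField CyclicStep Tower tower_le)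

variable {K : Type u} [Field K] [TopologicalSpace K] [IsTopologicalRing K] {n : ℕ}

theorem RepN.map_mul {F : Fld} (r : RepN K n F) {g h : Γ} (hg : g ∈ Gal F) (hh : h ∈ Gal F) :
    r.toFun (g * h) = r.toFun g * r.toFun h := r.mul g hg h hh

theorem unit_mul_inv (P : GL (Fin n) K) :
    (P : MatN K n) * ((P⁻¹ : GL (Fin n) K) : MatN K n) = 1 := by
  rw [← Units.val_mul, mul_inv_cancel, Units.val_one]

theorem inv_mul_unit (P : GL (Fin n) K) :
    ((P⁻¹ : GL (Fin n) K) : MatN K n) * (P : MatN K n) = 1 := by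
  rw [← Units.val_mul, inv_mul_cancel, Units.val_one]

theorem ConjOnN.trans {S : Set Γ} {r s t : Γ → MatN K n} (h : ConjOnN S r s)
    (h' : ConjOnN S s t) : ConjOnN S r t := by
  obtain ⟨P, hP⟩ := h
  obtain ⟨Q, hQ⟩ := h'
  refine ⟨Q * P, fun g hg => ?_⟩
  rw [hQ g hg, hP g hg, _root_.mul_inv_rev]
  simp only [Units.val_mul, mul_assoc]

theorem conjOn_symm {S : Set Γ} {r s : Γ → MatN K n} (h : ConjOnN S r s) : ConjOnN S s r := by
  obtain ⟨P, hP⟩ := h
  refine ⟨P⁻¹, fun g hg => ?_⟩
  rw [hP g hg, inv_inv]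
  calc r g = (((P⁻¹ : GL (Fin n) K) : MatN K n) * (P : MatN K n)) * r g *
        (((P⁻¹ : GL (Fin n) K) : MatN K n) * (P : MatN K n)) := by
        rw [inv_mul_unit, one_mul, mul_one]
    _ = _ := by simp only [mul_assoc]

/-- The conjugate representation. -/
noncomputable def RepN.conj {F : Fld} (r : RepN K n F) (P : GL (Fin n) K) : RepN K n F where
  toFun g := (P : MatN K n) * r.toFun g * ((P⁻¹ : GL (Fin n) K) : MatN K n)
  one := by rw [r.one, mul_one, unit_mul_inv]
  mul g hg h hh := by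
    unfold IsProdN
    rw [r.map_mul hg hh]
    calc (P : MatN K n) * (r.toFun g * r.toFun h) * ((P⁻¹ : GL (Fin n) K) : MatN K n)
        = (P : MatN K n) * r.toFun g * 1 * r.toFun h * ((P⁻¹ : GL (Fin n) K) : MatN K n) := by
          simp only [mul_assoc, mul_one]
      _ = _ := by
          rw [← inv_mul_unit P]
          simp only [mul_assoc]
  cont := by
    have := r.cont
    fun_prop

theorem RepN.inv {F : Fld} (r : RepN K n F) {g : Γ} (hg : g ∈ Gal F) :
    r.toFun g * r.toFun g⁻¹ = 1 ∧ r.toFun g⁻¹ * r.toFun g = 1 := by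
  constructor
  · rw [← r.map_mul hg (gal_inv hg), mul_inv_cancel, r.one]
  · rw [← r.map_mul (gal_inv hg) hg, inv_mul_cancel, r.one]

theorem trace_conj (P : GL (Fin n) K) (t : MatN K n) :
    ((P : MatN K n) * t * ((P⁻¹ : GL (Fin n) K) : MatN K n)).trace = t.trace := by
  rw [trace_mul_comm, ← mul_assoc, inv_mul_unit, one_mul]

/-- The span of the values is stable under conjugation of the representation. -/
theorem span_conj {S : Set Γ} {r : Γ → MatN K n} (P : GL (Fin n) K)
    (h : ∀ t, t ∈ Submodule.span K {t | ∃ h ∈ S, t = r h}) (m : MatN K n) :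
    m ∈ Submodule.span K
      {t | ∃ h ∈ S, t = (P : MatN K n) * r h * ((P⁻¹ : GL (Fin n) K) : MatN K n)} := by
  have key : ∀ x ∈ Submodule.span K {t | ∃ h ∈ S, t = r h},
      (P : MatN K n) * x * ((P⁻¹ : GL (Fin n) K) : MatN K n) ∈ Submodule.span K
        {t | ∃ h ∈ S, t = (P : MatN K n) * r h * ((P⁻¹ : GL (Fin n) K) : MatN K n)} := by
    intro x hx
    induction hx using Submodule.span_induction with
    | mem x hx =>
      obtain ⟨h, hh, rfl⟩ := hx
      exact Submodule.subset_span ⟨h, hh, rfl⟩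
    | zero => simp
    | add x y _ _ hx hy =>
      rw [mul_add, add_mul]
      exact Submodule.add_mem _ hx hy
    | smul c x _ hx =>
      rw [mul_smul_comm, smul_mul_assoc]
      exact Submodule.smul_mem _ c hx
  have := key _ (h (((P⁻¹ : GL (Fin n) K) : MatN K n) * m * (P : MatN K n)))
  have e : (P : MatN K n) * (((P⁻¹ : GL (Fin n) K) : MatN K n) * m * (P : MatN K n)) *
      ((P⁻¹ : GL (Fin n) K) : MatN K n) =
      ((P : MatN K n) * ((P⁻¹ : GL (Fin n) K) : MatN K n)) * m *
      ((P : MatN K n) * ((P⁻¹ : GL (Fin n) K) : MatN K n)) := by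
    simp only [mul_assoc]
  rw [e, unit_mul_inv, one_mul, mul_one] at this
  exact this

/-- The restriction of a representation. -/
def resRepN {F F' : Fld} (r : RepN K n F) (h : F ≤ F') : RepN K n F' where
  toFun := r.toFun
  one := r.one
  mul g hg k hk := r.mul g (fix_le h hg) k (fix_le h hk)
  cont := r.cont.mono (fix_le h)

/-- The monoid of the pairs of values of two representations on `Gal(Ω/L)`. -/
def pairsN {F F' L : Fld} (r : RepN K n F) (s : RepN K n F') (h : Gal L ⊆ Gal F)
    (h' : Gal L ⊆ Gal F') : Submonoid (MatN K n × MatN K n) where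
  carrier := {p | ∃ x ∈ Gal L, p = (r.toFun x, s.toFun x)}
  mul_mem' := by
    rintro _ _ ⟨x, hx, rfl⟩ ⟨y, hy, rfl⟩
    refine ⟨x * y, gal_mul hx hy, ?_⟩
    rw [r.map_mul (h hx) (h hy), s.map_mul (h' hx) (h' hy)]
    rfl
  one_mem' := ⟨1, L.fixingSubgroup.one_mem, by rw [r.one, s.one]; rfl⟩

/-- If the traces agree on a coset of `Gal(Ω/L)` up to a factor and the first representation is
irreducible there, the representations are isomorphic on `Gal(Ω/L)`. -/
theorem iso_of_trace_coset {F F' L : Fld} (r : RepN K n F) (s : RepN K n F')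
    (h : Gal L ⊆ Gal F) (h' : Gal L ⊆ Gal F')
    (hspan : ∀ m, m ∈ Submodule.span K {t | ∃ x ∈ Gal L, t = r.toFun x})
    {g : Γ} (hg : g ∈ Gal F) (hg' : g ∈ Gal F') (ζ : K)
    (htr : ∀ x ∈ Gal L, (r.toFun (g * x)).trace = ζ * (s.toFun (g * x)).trace) :
    IsoN L r s := by
  obtain ⟨P, hP⟩ := conj_of_trace_coset (pairsN r s h h') (c := r.toFun g) (d := ζ • s.toFun g)
    (c' := r.toFun g⁻¹) (by
      intro m
      refine Submodule.span_mono ?_ (hspan m)
      rintro _ ⟨x, hx, rfl⟩
      exact ⟨(r.toFun x, s.toFun x), ⟨x, hx, rfl⟩, rfl⟩) (r.inv hg).1 (by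
      rintro _ ⟨x, hx, rfl⟩
      have := htr x hx
      rw [r.map_mul hg (h hx), s.map_mul hg' (h' hx)] at this
      rw [smul_mul_assoc, trace_smul, smul_eq_mul]
      exact this)
  exact ⟨P, fun x hx => hP _ ⟨x, hx, rfl⟩⟩

/-- Two representations of `Gal(Ω/F)` which are isomorphic on `Gal(Ω/L)`, and irreducible there, differ by
a character of `Gal(L/F)`. -/
theorem twist_of_iso (hn : 0 < n) {F L : Fld} (hFL : FiniteGalois F L) (r s : RepN K n F)
    (hspan : ∀ m, m ∈ Submodule.span K {t | ∃ x ∈ Gal L, t = r.toFun x}) (h : IsoN L r s) :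
    ∃ χ : Γ → K, IsCharacter F L χ ∧ ConjOnN (Gal F) (fun g => χ g • s.toFun g) r.toFun := by
  classical
  have : Nonempty (Fin n) := ⟨⟨0, hn⟩⟩
  obtain ⟨P, hP⟩ := h
  have hle := fix_le hFL.1
  set r' : RepN K n F := r.conj P with hr'
  have hs : ∀ x ∈ Gal L, s.toFun x = r'.toFun x := hP
  have hspan' : ∀ m, m ∈ Submodule.span K {t | ∃ h ∈ Gal L, t = r'.toFun h} :=
    span_conj P hspan
  have hex : ∀ g ∈ Gal F, ∃ c : K, r'.toFun g = c • s.toFun g := by
    intro g hg
    obtain ⟨c, hc⟩ := scalar_of_comm hspan' (t := r'.toFun g * s.toFun g⁻¹) (by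
      rintro _ ⟨x, hx, rfl⟩
      have hx' : g⁻¹ * x * g ∈ Gal L := by
        have := conj_mem hFL (gal_inv hg) hx
        rwa [inv_inv] at this
      calc r'.toFun g * s.toFun g⁻¹ * r'.toFun x
          = r'.toFun g * (s.toFun g⁻¹ * s.toFun x) := by rw [hs x hx, mul_assoc]
        _ = r'.toFun g * s.toFun (g⁻¹ * x * g * g⁻¹) := by
            rw [← s.map_mul (gal_inv hg) (hle hx)]
            congr 2
            group
        _ = r'.toFun g * (r'.toFun (g⁻¹ * x * g) * s.toFun g⁻¹) := by
            rw [s.map_mul (hle hx') (gal_inv hg), hs _ hx']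
        _ = r'.toFun (g * (g⁻¹ * x * g)) * s.toFun g⁻¹ := by
            rw [r'.map_mul hg (hle hx'), Matrix.mul_assoc]
        _ = r'.toFun (x * g) * s.toFun g⁻¹ := by
            congr 2
            group
        _ = _ := by rw [r'.map_mul (hle hx) hg, mul_assoc])
    refine ⟨c, ?_⟩
    calc r'.toFun g = r'.toFun g * (s.toFun g⁻¹ * s.toFun g) := by rw [(s.inv hg).2, mul_one]
      _ = c • s.toFun g := by rw [← mul_assoc, hc, smul_mul_assoc, one_mul]
  let χ : Γ → K := fun g => if hg : g ∈ Gal F then (hex g hg).choose else 0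
  have hχ : ∀ g ∈ Gal F, r'.toFun g = χ g • s.toFun g := by
    intro g hg
    have := (hex g hg).choose_spec
    simp only [χ, dif_pos hg]
    exact this
  have hne : ∀ g ∈ Gal F, s.toFun g ≠ 0 := by
    intro g hg h0
    have := (s.inv hg).1
    rw [h0, zero_mul] at this
    exact one_ne_zero this.symm
  refine ⟨χ, ⟨fun g hg k hk => ?_, fun k hk => ?_⟩, P⁻¹, fun g hg => ?_⟩
  · have h1 := hχ _ (gal_mul hg hk)
    rw [r'.map_mul hg hk, s.map_mul hg hk, hχ g hg, hχ k hk, smul_mul_assoc, mul_smul_comm,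
      smul_smul, ← s.map_mul hg hk] at h1
    exact (smul_left_injective K (hne _ (gal_mul hg hk)) h1).symm
  · have h1 := hχ k (hle hk)
    rw [← hs k hk] at h1
    have h2 : (1 : K) • s.toFun k = χ k • s.toFun k := by rw [one_smul]; exact h1
    exact (smul_left_injective K (hne _ (hle hk)) h2).symm
  · change r.toFun g = _ * (χ g • s.toFun g) * _
    rw [← hχ g hg, inv_inv]
    change r.toFun g = _ * ((P : MatN K n) * r.toFun g * ((P⁻¹ : GL (Fin n) K) : MatN K n)) * _
    calc r.toFun g = (((P⁻¹ : GL (Fin n) K) : MatN K n) * (P : MatN K n)) * r.toFun g *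
          (((P⁻¹ : GL (Fin n) K) : MatN K n) * (P : MatN K n)) := by
          rw [inv_mul_unit, one_mul, mul_one]
      _ = _ := by simp only [mul_assoc]

theorem tower_cm {F L : Fld} (h : Tower F L) (hF : CMField F) : CMField L := by
  induction h with
  | refl => exact hF
  | tail _ h _ => exact h.2.1

namespace Data

variable {T : GN.Data K n}

/-- Descent along a tower. -/
theorem automorphic_of_tower (hT : T.Facts) {F F' L : Fld} (R : RepN K n F) (hR : T.Good R)
    (hF : Tower F F') (h : Tower F' L) (f : T.Form L) (hf : IsoN L R (T.gal f)) :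
    ∃ f' : T.Form F', IsoN F' R (T.gal f') := by
  induction h using Relation.ReflTransGen.head_induction_on with
  | refl => exact ⟨f, hf⟩
  | @head A B hstep _ ih =>
    obtain ⟨f₁, hf₁⟩ := ih (hF.tail hstep)
    exact hT.descent F A B R f₁ hF hstep hR hf₁

/-- **One representation.** -/
theorem automorphic_iff (hn : 0 < n) (hT : T.Facts) {F : Fld} (R : RepN K n F) (hR : T.Good R) :
    T.Automorphic R ↔ T.Approximated R := by
  constructor
  · rintro ⟨f, P, hP⟩
    refine ⟨F, Relation.ReflTransGen.refl, f, 1, one_pos, 1, one_pos,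
      Filter.Frequently.of_forall fun x => ?_⟩
    have h1 : T.Agree R f 1 ∩ {w | T.norm w ≤ x} = {w | T.norm w ≤ x} := by
      refine Set.inter_eq_right.2 fun w _ => ?_
      change (R.toFun (T.frob w)).trace ^ 1 = ((T.gal f).toFun (T.frob w)).trace ^ 1
      rw [hP _ (hT.frob_mem F w), trace_conj]
    rw [h1, one_mul]
  · rintro ⟨L, hL, f, m, hm, hf⟩
    have hFL := tower_le hL
    obtain ⟨L', hLL', ζ, -, g, hg, htr⟩ := hT.chebotarev F L R f m hFL hR.1 hm hf
    have hspan := hR.2.2 L' (hFL.trans hLL'.1) hLL'.2.1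
    have hiso : IsoN L' R (T.gal f) :=
      iso_of_trace_coset _ _ (fix_le (hFL.trans hLL'.1)) (fix_le hLL'.1) hspan
        (fix_le hFL hg) hg ζ htr
    obtain ⟨χ, hχ, h1⟩ := twist_of_iso hn hLL' (resRepN R hFL) (T.gal f) hspan hiso
    obtain ⟨f', hf'⟩ := hT.twist F L L' R f χ hL hLL' hχ hR h1
    exact automorphic_of_tower hT R hR Relation.ReflTransGen.refl hL f' hf'

/-- **All representations.** -/
theorem all_iff (hn : 0 < n) (hT : T.Facts) {M₀ : Fld} (hM : CMField M₀)
    (hG : SolvableGalois M₀) :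
    (∀ F, CMField F → ∀ R : RepN K n F, T.Good R → T.Automorphic R) ↔
      ∀ F, CMField F → M₀ ≤ F → ∀ R : RepN K n F, T.Good R → T.Semistable R →
        T.Approximated R := by
  constructor
  · intro h F hF _ R hR _
    exact (automorphic_iff hn hT R hR).1 (h F hF R hR)
  · intro h F hF R hR
    obtain ⟨L, hL, hML, R', hR', hg, hp, hs⟩ := hT.semistable F M₀ R hF hM hG hR
    have hFL := tower_le hL
    have hR2 : T.Good R' := by
      refine ⟨hg, hp, fun L' h1 h2 => ?_⟩
      rw [hR']
      exact hR.2.2 L' (hFL.trans h1) h2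
    obtain ⟨f, hf⟩ := (automorphic_iff hn hT R' hR2).2 (h L (tower_cm hL hF) hML R' hR2 hs)
    refine automorphic_of_tower hT R hR Relation.ReflTransGen.refl hL f ?_
    unfold IsoN at hf ⊢
    rw [← hR']
    exact hf

end Data

end Pool.Agent.Q50.ES.GN
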